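import Pool.Agent.V5helper31.CG.D

/-!
# Finite quotients of `Out (F_n)` where the transvections `x_1 ↦ x_1 w` generate a group of class 2

Let `n ≥ 5` and let `V` be a normal subgroup of `Aut (F_n)`. Suppose that the image in
`Aut (F_n) / V` of the group `T ≅ F_{n-1}` of the transvections `x_1 ↦ x_1 w`,
`w ∈ ⟨x_2, ..., x_n⟩`, is nilpotent of class at most two, or only that `V` contains one
transvection `x_i ↦ x_i [[x_j, x_k], x_l]` with distinct `i`, `j`, `k`, `l`.

Then `V` contains every automorphism that acts trivially on `F_n / γ_4 (F_n)`. So if `V` has finite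
index then it is a congruence subgroup of `Aut (F_n)`, and if moreover `V` contains the inner
automorphisms then the finite quotient `Aut (F_n) / V` of `Out (F_n)` is a congruence quotient: it
factors through the image of `Out (F_n)` in `Out (F_n / K)` for a characteristic subgroup `K` of
finite index.

In fact the normal closure `R` of the transvection `x_i ↦ x_i [[x_j, x_k], x_l]` is
`{α : α acts trivially on F_n / γ_3 and tr α = 0}`, where `tr` is the contraction
`Hom (H, γ_3 / γ_4) → Λ² H` of the second Johnson homomorphism; hence, if `V` contains the inner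
automorphisms, then `α ^ (n + 1) ∈ V` for every `α` acting trivially on `F_n / γ_3`.

The proof. In `Q = Aut (F_n) / R` the classes of the partial conjugations
`x_i ↦ [x_j, x_k]⁻¹ x_i [x_j, x_k]` do not depend on `i`, commute with one another and generate a
normal subgroup `Z`; modulo `Z` all partial conjugations `x_i ↦ u⁻¹ x_i u`, `u ∈ F_n'`, are
trivial, so the known case of the normal closure of these (starting work) shows that the
automorphisms acting trivially modulo `γ_3` are in the product of `Z` and the inner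
automorphisms by elements of `F_n'`, and these are in `Z` by explicit relations. So
`Z` is a quotient of `Λ² ℤ^n`, and it is detected by the contraction `tr`, whose naturality is
proved by an explicit action of `Aut (F_n)` on the homomorphisms of `F_n` into unitriangular
`4 × 4` matrices.
-/

set_option autoImplicit false

namespace Pool.Agent.Results.MP_181555_al.ClassTwoTransvections

open FreeGroup (of)
open scoped commutatorElement

/-- `τ` is a transvection by a triple commutator: `x i ↦ x i * [[x j, x k], x l]` for distinct `i`,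
`j`, `k`, `l`, the other generators are fixed. -/
def IsTripleTransvection {n : ℕ} (τ : MulAut (FreeGroup (Fin n))) : Prop :=
  ∃ i j k l : Fin n, i ≠ j ∧ i ≠ k ∧ i ≠ l ∧ j ≠ k ∧ j ≠ l ∧ k ≠ l ∧
    τ (of i) = of i * ⁅⁅of j, of k⁆, of l⁆ ∧ ∀ m, m ≠ i → τ (of m) = of m

theorem result (n : ℕ) (_ : 5 ≤ n) (V : Subgroup (MulAut (FreeGroup (Fin n)))) (_ : V.Normal)
    (_ : ∃ τ ∈ V, IsTripleTransvection τ) :
    (∀ α : MulAut (FreeGroup (Fin n)),
      (∀ x, α x * x⁻¹ ∈ (⊤ : Subgroup (FreeGroup (Fin n))).lowerCentralSeries 3) → α ∈ V) ∧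
    (V.FiniteIndex → ∃ K : Subgroup (FreeGroup (Fin n)), K.Characteristic ∧ K.FiniteIndex ∧
      ∀ α : MulAut (FreeGroup (Fin n)), (∀ x, α x * x⁻¹ ∈ K) → α ∈ V) ∧
    ((∀ g : FreeGroup (Fin n), MulAut.conj g ∈ V) →
      (∀ α : MulAut (FreeGroup (Fin n)),
        (∀ x, α x * x⁻¹ ∈ (⊤ : Subgroup (FreeGroup (Fin n))).lowerCentralSeries 2) →
          α ^ (n + 1) ∈ V) ∧
      (V.FiniteIndex → ∃ K : Subgroup (FreeGroup (Fin n)), K.Characteristic ∧ K.FiniteIndex ∧
        ∀ α : MulAut (FreeGroup (Fin n)),
          (∃ g, ∀ x, α x * (g * x * g⁻¹)⁻¹ ∈ K) → α ∈ V)) := by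
  rename_i h5 hV hτ
  obtain ⟨τ, hτV, i, j, k, l, h1, h2, h3, h4, h5', h6, h7, h8⟩ := hτ
  have e : τ = Helper460_OutF.rr i ⁅⁅of j, of k⁆, of l⁆ := by
    refine Helper460_OutF.aut_ext fun m => ?_
    by_cases hm : m = i
    · subst hm
      rw [h7, Helper460_OutF.rr_self, map_commutatorElement,
        Helper460_OutF.kil_comm_of (Ne.symm h1) (Ne.symm h2), Helper460_OutF.kil_ne (Ne.symm h3)]
    · rw [h8 m hm, Helper460_OutF.rr_ne hm]
  have hR : V5helper31.CG.R3 (Fin n) ≤ V := by
    rw [e] at hτV
    exact V5helper31.CG.R3_of_one h1 h2 h3 h4 h5' h6 hτV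
  refine ⟨fun α hα => hR (V5helper31.CG.gamma4_le h5 hα),
    fun hf => V5helper31.CG.cong_aut h5 hf hR, fun hinn => ⟨fun α hα => ?_, fun hf =>
      V5helper31.CG.cong_out h5 hf hR hinn⟩⟩
  have := V5helper31.CG.power3 (ι := Fin n) (by simpa using h5) hR hinn
    (V5helper31.CG.mem_AT.2 hα)
  simpa using this

end Pool.Agent.Results.MP_181555_al.ClassTwoTransvections
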