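import Pool.Agent.V5helper31.CH.Main

/-!
# Finite quotients of `Out (F_n)` whose abelian chief factors have rank less than `~ n ^ 4 / 6`

Let `n ≥ 9` and let `𝒮` be the smallest class of normal subgroups of `Aut (F_n)` such that

* the normal subgroups containing `IA_n` are in `𝒮`;
* the kernel of a representation of `Aut (F_n)` with fewer than `binom (n / 2 - 5) 2` generators
  over a commutative ring (for `n ≥ 48` fewer than `binom (n - 6) 2` generators) is in `𝒮`;
* `V ∈ 𝒮` if `V ≤ U`, `U ∈ 𝒮`, the centre of `U / V` is generated by fewer than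
  `n * binom (n - 1) 3` elements, and some `C ∈ 𝒮`, or a single transvection
  `x i ↦ x i [[x j, x k], x l]`, acts trivially on `U / V` (if `U / V` is abelian then `C = U` does).

Then every `V ∈ 𝒮` contains all transvections `x i ↦ x i [[x j, x k], x l]`, hence all
automorphisms acting trivially on `F_n / γ_4 (F_n)`. If `V` has finite index then it is a congruence
subgroup; if moreover it contains the inner automorphisms then the finite quotient `Aut (F_n) / V`
of `Out (F_n)` is a congruence quotient.

So, roughly: a finite quotient of `Out (F_n)` is a congruence quotient if its abelian chief factors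
have rank less than `n * binom (n - 1) 3` and on its nonabelian chief factors some triple commutator
transvection acts trivially.

The bound is near the truth: the kernel of the contraction `Hom (H, Λ³ H) → Λ² H` modulo `3` is
a quotient of the normal closure `R` of the transvections `x i ↦ x i [[x j, x k], x l]` of rank
`n * binom n 3 - binom n 2`.

The proof. By induction it suffices to show that every elementary abelian quotient `R / X` (`X`
normal in `Aut (F_n)`) with fewer than `n * binom (n - 1) 3` generators is trivial, and one may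
assume that it is a simple module.

* The group `K` of the automorphisms acting trivially modulo `γ_3` acts on the abelianization of `R`
  with `(ζ - 1) (ζ' - 1) = 0` for all `ζ, ζ' ∈ K`: modulo `R` the group `K` is generated by the
  partial conjugations `x m ↦ [x j, x k]⁻¹ x m [x j, x k]`, which do not depend on `m` modulo `R`, so
  that `m` can be chosen away from all other indices. So `K` acts trivially on the simple module.
* If `IA_n` does not act trivially on the simple module then, over the algebraic closure, there is a
  functional `f ≠ 0` on `R` with `f (δ r δ⁻¹) = χ (δ) f (r)` for `δ ∈ IA_n`, with a character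
  `χ ≠ 1` of `IA_n`. If `f` does not vanish on `x i ↦ x i [[x j, x k], x l]` then explicit relations
  show that `χ = 1` on the generators of `IA_n` which change only one generator `x m` with
  `m` different from `i, j, k, l`; moving `f` by transvections one arranges that `f` does not
  vanish on five such elements without a common index, so `χ = 1`.
* In a module with trivial action of `IA_n` the transvections `x p ↦ x p x q` act on the classes of
  the triple commutator transvections by simple formulas, and products of five operators of the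
  form `g - 1` isolate each of the `n * binom (n - 1) 3` classes of `x i ↦ x i [[x j, x k], x l]`,
  `j < k < l`, so that these are linearly independent.
-/

set_option autoImplicit false

namespace Pool.Agent.Results.MP_181555_al.QuarticChiefFactors

open FreeGroup (of)
open scoped commutatorElement

universe u v

/-- `τ` is a transvection by a triple commutator: `x i ↦ x i * [[x j, x k], x l]` for distinct `i`,
`j`, `k`, `l`, the other generators are fixed. -/
def IsTripleTransvection {n : ℕ} (τ : MulAut (FreeGroup (Fin n))) : Prop :=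
  ∃ i j k l : Fin n, i ≠ j ∧ i ≠ k ∧ i ≠ l ∧ j ≠ k ∧ j ≠ l ∧ k ≠ l ∧
    τ (of i) = of i * ⁅⁅of j, of k⁆, of l⁆ ∧ ∀ m, m ≠ i → τ (of m) = of m

/-- `α` acts trivially on `U / V` (by conjugation). -/
def ActsTrivially {n : ℕ} (α : MulAut (FreeGroup (Fin n)))
    (V U : Subgroup (MulAut (FreeGroup (Fin n)))) : Prop :=
  ∀ y ∈ U, α * y * α⁻¹ * y⁻¹ ∈ V

/-- The centre of `U / V` is generated by fewer than `n * binom (n - 1) 3` elements: there is a
set `S` with fewer than `n * binom (n - 1) 3` elements of `U` that are central modulo `V`, such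
that every element of `U` that is central modulo `V` is congruent modulo `V` to an element of the
subgroup generated by `S`. -/
def SmallCentre {n : ℕ} (V U : Subgroup (MulAut (FreeGroup (Fin n)))) : Prop :=
  ∃ S : Finset (MulAut (FreeGroup (Fin n))), S.card < n * (n - 1).choose 3 ∧
    (∀ s ∈ S, s ∈ U ∧ ActsTrivially s V U) ∧
    ∀ x ∈ U, ActsTrivially x V U →
      ∃ s ∈ Subgroup.closure (S : Set (MulAut (FreeGroup (Fin n)))), s⁻¹ * x ∈ V

/-- The smallest class of normal subgroups of `Aut (F_n)` which contains the normal subgroups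
containing `IA_n` and the kernels of representations with few generators over commutative rings,
and is closed under the two extension steps `step` and `act`. -/
inductive Small {n : ℕ} : Subgroup (MulAut (FreeGroup (Fin n))) → Prop
  /-- a normal subgroup which contains all automorphisms acting trivially on the abelianization -/
  | top (V : Subgroup (MulAut (FreeGroup (Fin n)))) : V.Normal →
      (∀ α : MulAut (FreeGroup (Fin n)),
        (∀ x, α x * x⁻¹ ∈ commutator (FreeGroup (Fin n))) → α ∈ V) → Small V
  /-- the kernel of a representation on a module with `e` generators over a commutative ring `K` -/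
  | rep (K : Type u) (_ : CommRing K) (M : Type v) (_ : AddCommGroup M) (_ : Module K M) (e : ℕ)
      (g : Fin e → M) (f : MulAut (FreeGroup (Fin n)) →* (M ≃ₗ[K] M)) :
      (e < (n / 2 - 5).choose 2 ∨ (48 ≤ n ∧ e < (n - 6).choose 2)) →
      Submodule.span K (Set.range g) = ⊤ → Small f.ker
  /-- a normal subgroup `V ≤ U` such that the centre of `U / V` is small and `C` acts trivially on
  `U / V` -/
  | step (V U C : Subgroup (MulAut (FreeGroup (Fin n)))) :
      Small U → Small C → V.Normal → V ≤ U → SmallCentre V U →
      (∀ α ∈ C, ActsTrivially α V U) → Small V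
  /-- a normal subgroup `V ≤ U` such that the centre of `U / V` is small and a triple commutator
  transvection acts trivially on `U / V` -/
  | act (V U : Subgroup (MulAut (FreeGroup (Fin n)))) (τ : MulAut (FreeGroup (Fin n))) :
      Small U → V.Normal → V ≤ U → SmallCentre V U → IsTripleTransvection τ →
      ActsTrivially τ V U → Small V

theorem result (n : ℕ) (_ : 9 ≤ n) (V : Subgroup (MulAut (FreeGroup (Fin n))))
    (_ : Small.{u, v} V) :
    (∀ τ, IsTripleTransvection τ → τ ∈ V) ∧
    (∀ α : MulAut (FreeGroup (Fin n)),
      (∀ x, α x * x⁻¹ ∈ (⊤ : Subgroup (FreeGroup (Fin n))).lowerCentralSeries 3) → α ∈ V) ∧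
    (V.FiniteIndex → ∃ K : Subgroup (FreeGroup (Fin n)), K.Characteristic ∧ K.FiniteIndex ∧
      ∀ α : MulAut (FreeGroup (Fin n)), (∀ x, α x * x⁻¹ ∈ K) → α ∈ V) ∧
    ((∀ g : FreeGroup (Fin n), MulAut.conj g ∈ V) →
      (∀ α : MulAut (FreeGroup (Fin n)),
        (∀ x, α x * x⁻¹ ∈ (⊤ : Subgroup (FreeGroup (Fin n))).lowerCentralSeries 2) →
          α ^ (n + 1) ∈ V) ∧
      (V.FiniteIndex → ∃ K : Subgroup (FreeGroup (Fin n)), K.Characteristic ∧ K.FiniteIndex ∧
        ∀ α : MulAut (FreeGroup (Fin n)),
          (∃ g, ∀ x, α x * (g * x * g⁻¹)⁻¹ ∈ K) → α ∈ V)) := by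
  rename_i h9 hS
  have h5 : 5 ≤ n := by omega
  have hrr : ∀ τ : MulAut (FreeGroup (Fin n)), IsTripleTransvection τ → ∃ i j k l : Fin n,
      i ≠ j ∧ i ≠ k ∧ i ≠ l ∧ j ≠ k ∧ j ≠ l ∧ k ≠ l ∧
        τ = Helper460_OutF.rr i ⁅⁅of j, of k⁆, of l⁆ := by
    rintro τ ⟨i, j, k, l, h1, h2, h3, h4, h5', h6, h7, h8⟩
    refine ⟨i, j, k, l, h1, h2, h3, h4, h5', h6, Helper460_OutF.aut_ext fun m => ?_⟩
    by_cases hm : m = i
    · subst hm
      rw [h7, Helper460_OutF.rr_self, map_commutatorElement,
        Helper460_OutF.kil_comm_of (Ne.symm h1) (Ne.symm h2), Helper460_OutF.kil_ne (Ne.symm h3)]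
    · rw [h8 m hm, Helper460_OutF.rr_ne hm]
  have hsm : V5helper31.CH.Small (V5helper31.CG.R3 (Fin n)) (n * (n - 1).choose 3) := by
    have := V5helper31.CH.small9 (ι := Fin n) (by simpa using h9)
    simpa using this
  have key : V.Normal ∧ V5helper31.CG.R3 (Fin n) ≤ V := by
    induction hS with
    | top V hV hIA =>
      refine ⟨hV, V5helper31.CH.R3_le_RR.trans (V5helper31.CF.RR_le_IA.trans fun α hα => ?_)⟩
      exact hIA α (V5helper31.CH.IA_AT1 hα)
    | rep K _ M _ _ e g f he hg =>
      exact ⟨inferInstance, V5helper31.CH.R3_le_RR.trans (V5helper31.CF.lin_kills he hg f)⟩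
    | step V U C _ _ hV _ hc hact hU hC =>
      exact ⟨hV, V5helper31.CH.step hsm hV hU.2 hc fun r hr x hx => hact r (hC.2 hr) x hx⟩
    | act V U τ _ hV _ hc hτ hact hU =>
      obtain ⟨i, j, k, l, h1, h2, h3, h4, h5', h6, rfl⟩ := hrr τ hτ
      have hUn : U.Normal := hU.1
      have hC := V5helper31.CG.R3_of_one (X := V5helper31.CF.Cm V U) h1 h2 h3 h4 h5' h6
        (V5helper31.CF.mem_Cm.2 hact)
      exact ⟨hV, V5helper31.CH.step hsm hV hU.2 hc fun r hr =>
        V5helper31.CF.mem_Cm.1 (hC hr)⟩
  obtain ⟨hV, hR⟩ := key
  refine ⟨fun τ hτ => ?_, fun α hα => hR (V5helper31.CG.gamma4_le h5 hα),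
    fun hf => V5helper31.CG.cong_aut h5 hf hR, fun hinn => ⟨fun α hα => ?_, fun hf =>
      V5helper31.CG.cong_out h5 hf hR hinn⟩⟩
  · obtain ⟨i, j, k, l, h1, h2, h3, h4, h5', h6, rfl⟩ := hrr τ hτ
    exact hR (Subgroup.subset_normalClosure ⟨i, j, k, l, h1, h2, h3, h4, h5', h6, rfl⟩)
  · have := V5helper31.CG.power3 (ι := Fin n) (by simpa using h5) hR hinn
      (V5helper31.CG.mem_AT.2 hα)
    simpa using this

end Pool.Agent.Results.MP_181555_al.QuarticChiefFactors
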