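import Pool.Agent.V5helper38.RH.Ex

/-!
# Finite quotients of `Out (F_n)` through virtually nilpotent quotients with rational holonomy

Let `F` be the free group of rank `n ≥ 4`. A normal subgroup `N` of finite index of `F` is *good*
if the rational group algebra of `F / N` is a product of matrix algebras over `ℚ` and, for each
factor, some basis of `F` has two elements which act trivially in this factor.

Let `𝒩` be a finite set of good normal subgroups of finite index, invariant under `Aut (F)`.

(1) Every subgroup of finite index of `Aut (F)` which contains the automorphisms acting trivially on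
`F / N` and on `N / [N, N]` for all `N ∈ 𝒩` contains, for some `M ≠ 0`, the automorphisms acting
trivially on the finite groups `F / [N, N] N ^ M`, `N ∈ 𝒩`.

(2) For all `c`, every subgroup of finite index of `Aut (F)` which contains the automorphisms acting
trivially on `F / γ_{c+1} (N)` for all `N ∈ 𝒩` is a congruence subgroup.

(3) The same for `Out (F)`, with `F / ⋂ γ_{c+1} (N)`.

(4), (5) The kernels of the surjections of `F` to a finite group `G` with split rational group
algebra are good, if for each factor every generating set of `G` contains at most `n - 2` elements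
which generate the image of `G` in the factor, for example if `|G| < 2 ^ (n - 1)`.

(6) The kernels of all surjections to elementary abelian `2`-groups and to the symmetric group of
degree three are good, and so is the subgroup generated by the squares.

For (1): for an integral representation `r` of `F / N` the derivations `F → ℤ^d` with respect to `r`
restrict to homomorphisms `N → ℤ^d`; together they detect `N / [N, N]`. If `r` is absolutely
irreducible and trivial on two letters `y₁, y₂`, the automorphisms `y_i ↦ y_i w`, where `w` is a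
product of powers of conjugates of a word `u` with the matrix coefficients of `r` as exponents, act
as elementary matrices on the derivations modulo the inner ones (Schur orthogonality), and a
commutator of two of them (for `y₁` and for `y₂`) acts trivially for all representations of at most
the same dimension which are not equivalent to `r`. The representations of larger dimension are
taken care of by induction on the dimension, from above, using the theorem of Bass, Lazard, Serre
and Mennicke for `SL_k (ℤ)` and the theorem of Tits on the subgroups generated by elementary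
matrices at each step.
-/

set_option autoImplicit false

namespace Pool.Agent.Results.MP_181555_al.RationalHolonomy

open scoped commutatorElement

/-- The rational group algebra of `F / N` is a product of matrix algebras over `ℚ`, and for each
factor there is a basis of `F` two of whose elements act trivially in the factor. -/
def Good (n : ℕ) (N : Subgroup (FreeGroup (Fin n))) : Prop :=
  ∃ (_ : N.Normal) (k : ℕ) (d : Fin k → ℕ)
    (E : MonoidAlgebra ℚ (FreeGroup (Fin n) ⧸ N) ≃ₐ[ℚ] Π j, Matrix (Fin (d j)) (Fin (d j)) ℚ),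
    ∀ j, ∃ θ : MulAut (FreeGroup (Fin n)), ∃ y₁ y₂ : Fin n, y₁ ≠ y₂ ∧
      E (MonoidAlgebra.of ℚ (FreeGroup (Fin n) ⧸ N)
        (QuotientGroup.mk (θ (FreeGroup.of y₁)))) j = 1 ∧
      E (MonoidAlgebra.of ℚ (FreeGroup (Fin n) ⧸ N)
        (QuotientGroup.mk (θ (FreeGroup.of y₂)))) j = 1

theorem result (n : ℕ) (_ : 4 ≤ n) :
    (∀ 𝒩 : Set (Subgroup (FreeGroup (Fin n))), 𝒩.Finite →
      (∀ N ∈ 𝒩, N.FiniteIndex ∧ Good n N) →
      (∀ N ∈ 𝒩, ∀ θ : MulAut (FreeGroup (Fin n)), N.map θ.toMonoidHom ∈ 𝒩) →
      (∀ V : Subgroup (MulAut (FreeGroup (Fin n))), V.FiniteIndex →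
        (∀ α : MulAut (FreeGroup (Fin n)), (∀ N ∈ 𝒩, (∀ x, α x * x⁻¹ ∈ N) ∧
          ∀ x ∈ N, α x * x⁻¹ ∈ ⁅N, N⁆) → α ∈ V) →
        ∃ M : ℕ, M ≠ 0 ∧ ∀ α : MulAut (FreeGroup (Fin n)), (∀ N ∈ 𝒩, ∀ x, α x * x⁻¹ ∈
          ⁅N, N⁆ ⊔ Subgroup.closure {x | ∃ y ∈ N, x = y ^ M}) → α ∈ V) ∧
      (∀ (c : ℕ) (V : Subgroup (MulAut (FreeGroup (Fin n)))), V.FiniteIndex →
        (∀ α : MulAut (FreeGroup (Fin n)),
          (∀ N ∈ 𝒩, ∀ x, α x * x⁻¹ ∈ N.lowerCentralSeries c) → α ∈ V) →
        ∃ K : Subgroup (FreeGroup (Fin n)), K.Characteristic ∧ K.FiniteIndex ∧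
          ∀ α : MulAut (FreeGroup (Fin n)), (∀ x, α x * x⁻¹ ∈ K) → α ∈ V) ∧
      (∀ (c : ℕ) (V : Subgroup (MulAut (FreeGroup (Fin n)))), V.FiniteIndex →
        (∀ x, MulAut.conj x ∈ V) →
        (∀ α : MulAut (FreeGroup (Fin n)),
          (∃ g, ∀ N ∈ 𝒩, ∀ x, α x * (g * x * g⁻¹)⁻¹ ∈ N.lowerCentralSeries c) → α ∈ V) →
        ∃ K : Subgroup (FreeGroup (Fin n)), K.Characteristic ∧ K.FiniteIndex ∧
          ∀ α : MulAut (FreeGroup (Fin n)),
            (∃ g, ∀ x, α x * (g * x * g⁻¹)⁻¹ ∈ K) → α ∈ V)) ∧
    (∀ (G : Type) [Group G] [Finite G] (k : ℕ) (d : Fin k → ℕ)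
      (E : MonoidAlgebra ℚ G ≃ₐ[ℚ] Π j, Matrix (Fin (d j)) (Fin (d j)) ℚ),
      (∀ (j : Fin k) (T : Finset G), Subgroup.closure (T : Set G) = ⊤ →
        ∃ T' ⊆ T, T'.card + 2 ≤ n ∧ ∀ g, ∃ g' ∈ Subgroup.closure (T' : Set G),
          E (MonoidAlgebra.of ℚ G g') j = E (MonoidAlgebra.of ℚ G g) j) →
      ∀ φ : FreeGroup (Fin n) →* G, Function.Surjective φ → Good n φ.ker) ∧
    (∀ (G : Type) [Group G] [Finite G] (k : ℕ) (d : Fin k → ℕ)
      (_ : MonoidAlgebra ℚ G ≃ₐ[ℚ] Π j, Matrix (Fin (d j)) (Fin (d j)) ℚ),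
      Nat.card G < 2 ^ (n - 1) →
      ∀ φ : FreeGroup (Fin n) →* G, Function.Surjective φ → Good n φ.ker) ∧
    (∀ (k : ℕ) (φ : FreeGroup (Fin n) →* (Fin k → ℤˣ)), Function.Surjective φ →
      Good n φ.ker) ∧
    (∀ φ : FreeGroup (Fin n) →* Equiv.Perm (Fin 3), Function.Surjective φ → Good n φ.ker) ∧
    Good n (Subgroup.closure {x | ∃ y, x = y * y}) := by
  rename_i hn
  refine ⟨?_, ?_, ?_, ?_, ?_, ?_⟩
  · intro 𝒩 hfin h1 hinv
    refine ⟨fun V hV h => ?_, fun c V hV h => ?_, fun c V hV hinn h => ?_⟩
    · exact V5helper38.RH.family_lin hn 𝒩 hfin (fun N hN => (h1 N hN).1)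
        (fun N hN => (h1 N hN).2) hinv V hV h
    · exact V5helper38.RH.family hn 𝒩 hfin (fun N hN => (h1 N hN).1)
        (fun N hN => (h1 N hN).2) hinv c V hV h
    · exact V5helper38.RH.family_out hn 𝒩 hfin (fun N hN => (h1 N hN).1)
        (fun N hN => (h1 N hN).2) hinv c V hV hinn h
  · intro G _ _ k d E hgen φ hφ
    exact V5helper38.RH.good_ker E hgen φ hφ
  · intro G _ _ k d E hG φ hφ
    exact V5helper38.RH.good_small E hG φ hφ
  · intro k φ hφ
    exact V5helper38.RH.good_two (by omega) φ hφ
  · intro φ hφ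
    exact V5helper38.RH.good_three hn φ hφ
  · exact V5helper38.RH.good_sq (by omega)

end Pool.Agent.Results.MP_181555_al.RationalHolonomy
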