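import Pool.Agent.V5helper35.AS.Fin5

/-!
# Subgroups of `Out (F_n)` on which the congruence topology is the full profinite topology

Let `A` be a subgroup of `Out (F_n)` in the family `Family`.  We prove that EVERY subgroup `B` of finite index of
`A` is a congruence subgroup of `A`: it contains all elements of `A` which are trivial in `Out (F_n / K)`, for some
characteristic subgroup `K` of finite index of `F_n`.  In particular (`B = A ∩ N`) every finite quotient
`Out (F_n) / N`, restricted to `A`, to a subgroup of `A`, or to a conjugate of these, factors through such an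
`Out (F_n / K)`.

`Family` is the least family of subgroups of the groups `Out (F_n)`, `n ≥ 1`, which contains

* `Out (F_1)`, and `Out (F_2)` (this case is a theorem of Asada),
* the subgroups of `Out (F_n)`, `n ≥ 2`, which have a finitely generated abelian subgroup of finite index (by theorems of
  Bestvina, Feighn and Handel these are exactly the subgroups without a nonabelian free subgroup; for
  example all cyclic subgroups, and the centralizers of the fully irreducible elements),

and which is closed under

* subgroups on which `A` induces the full profinite topology (for example subgroups of finite index, retracts,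
  and if `A` is virtually free, as `Out (F_2)`, all finitely generated subgroups), and overgroups in which `A` is a
  congruence subgroup,
* `Cover`: the outer automorphisms of a subgroup `L ≅ F_m` of finite index of `F_n` which are induced by
  automorphisms of `F_n` with classes in `A`,
* punctures: images of the homomorphisms `f : Ã → Out (F_{m+1})`, where `Ã` is the preimage of `A` in
  `Aut (F_n)`, such that `f σ` is the class of an automorphism which fixes the last generator `t` and induces `σ` on
  `F_n` by a surjection `p : F_{m+1} → F_n` with `p t = 1` (for example the pure mapping class group of a surface with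
  one more puncture; so `Family` contains the pure mapping class groups of the punctured spheres and tori, also a
  theorem of Asada; or the group `Ã ≤ Aut (F_n)` which acts on `F_n * ⟨t⟩` and fixes `t`),
* `HnnStep`: the automorphisms of `F_n * ⟨t⟩` which restrict to an element of `Ã` on `F_n` and map `t` to
  `u t^{±1} v` with `u`, `v` in `F_n`,
* `FreeProd`: the automorphisms of `F_k * F_l` which restrict to an element of `Ã` on `F_k` and of `B̃` on `F_l`,
* `Amalgam`: the automorphisms of `F_k * F_l = F_k *_{w = t} (F_l * ⟨t⟩)` which restrict to an element of `Ã` on `F_k`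
  fixing `w`, and to an element of `B̃` on `F_l * ⟨t⟩` fixing `t`, if `w` is not a proper power and `A` and `B` fix the
  conjugacy classes of `w` and `t` (this group contains the Dehn twist along `w`),
* `CyclicHnn`: the automorphisms of `F_l * ⟨s⟩`, the HNN extension of `F_l * ⟨t⟩` with `s w s⁻¹ = t`, `w ∈ F_l`, which
  restrict to an element of `B̃` on `F_l * ⟨t⟩` fixing `t`, if `w` is not a proper power and `B` fixes the conjugacy
  classes of `w` and `t`.

The last two operations give, up to finite index, stabilizers of splittings of free groups over infinite cyclic groups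
with one edge (by theorems of Shenitzer, Stallings and Swarup these splittings are obtained in this way, if the edge
group is a maximal cyclic subgroup on both sides).

For example, for every free splitting of `F_3` with one edge the stabilizer in `Out (F_3)` is in `Family` (`F_3 =
F_2 * F_1` and `F_3 = F_2 * ⟨t⟩` as an HNN extension), and so is the group of the outer automorphisms of `F_3` which
are induced by automorphisms of `F_2`, for every embedding of `F_3` as a subgroup of index two of `F_2`; and for every
automorphism `φ` of `F_n` of infinite order in `Out (F_n)` the group `F_n ⋊ ⟨φ⟩ ≤ Aut (F_n) ≤ Out (F_{n+1})`.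

The proofs.

(A) Virtually abelian groups.  It is enough to show that for a finitely generated abelian `A` and `m > 0` the elements
of `A` which are trivial in `Out (F_n / K)` are `m`-th powers in `A`, for a suitable `K`.  The image of `A` in
`GL_n (ℤ)`: Chevalley's theorem for commuting integer matrices (its semisimple part is the theorem of Chevalley on
the units of number fields, proved with Chebotarev's density theorem and Kummer theory).  The kernel of
`A → GL_n (ℤ)` is filtered by the groups `J_c` of the automorphisms which act on `ℤ⟨⟨X_1, ..., X_n⟩⟩ / (degree > c)` (by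
the Magnus expansion) as an inner automorphism of this *ring*; the quotients `J_c / J_{c + 1}` embed in finitely
generated free abelian groups, compatibly with reduction modulo `m` and hence with finite quotients of `F_n`; and
the intersection of the `J_c` is the group of the inner automorphisms.  From abelian to virtually
abelian groups: the family of the congruence subgroups is closed under intersections and separates the points.

(B) `Out (F_2)`.  A new short proof of Asada's theorem.  The automorphisms `δ : x ↦ x, y ↦ x² y` and
`ε : x ↦ x y⁻², y ↦ y` commute with the automorphism `ζ : x ↦ x y⁻¹ x⁻¹ y x⁻¹, y ↦ x y⁻¹ x⁻¹`, and they and the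
inner automorphisms generate a subgroup of finite index of `Aut (F_2)` which contains the automorphisms which
act trivially on the homology modulo 4 (Nielsen).  For elements `c, a, b` of a finite group `W` the free group `⟨x, y⟩` acts on
`{0, p, q, r} × W` by monomial permutations: `x` maps `0 → r` with coefficient `a`, `r → 0` with `c`, `p → q` with
`a⁻¹c⁻¹`, `q → p` with `1`, and `y` maps `0 → p` with `c`, `p → 0` with `b`, `q → r` with `c⁻¹b⁻¹`, `r → q` with `1`.
The automorphism `ζ` changes this action by the diagonal matrix `(c, b, a⁻¹c⁻¹b⁻¹, a)`, and for `c = 1` the automorphisms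
`δ` and `ε` change it by `(a, 1, 1, a)` and `(b, b, 1, 1)`.  Let the word `w = w (δ, ε)` be inner modulo `K`, by `g`.
Because `w` commutes with `ζ`, and finite quotients of `F_2` can be chosen with small centre, the image of `g`
commutes with the diagonal matrix of `ζ`.  With `W = (ℤ/2)^Q ⋊ Q` (`Q` a finite quotient of the free group on
`a, b`) and `c` the delta function at `1`, the element `g` fixes the fibre over `0` pointwise modulo
`(ℤ/2)^Q`.  As `x²` and `y²` act on this fibre (for `c = 1`) by `a` and `b`, the element `w (a, b)` commutes with `a`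
and `b` in `Q`; for suitable `Q` it follows that `w` is in a given subgroup of finite index of the free group on `δ, ε`.

(C) The closure properties: for `HnnStep` and `FreeProd` the proofs of the starting library
(`FlagStabilizers`, `FreeSplittingStabilizers`) work for all subgroups of finite index of the groups in the family;
for covers and punctures one uses control of the centralizers of the powers of the generators in finite quotients of
`F_n` (malnormality).  For amalgams: the centralizer of `w` in suitable finite quotients of `F_n` is close to `⟨w⟩`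
(by the Fox derivatives of `w`), and `F_k * F_l` induces the full profinite topology on `⟨w⟩ * F_l` (by a finite
action of `F_k` such that `w` has a cycle of given length), likewise for HNN extensions.

The parts were written by helper1, helper3, helper6, helper7, helper16, helper23, helper26, helper31, helper35, helper36,
helper55, helper56, helper61, helper62, helper65, helper69, helper72, helper76, helper81, helper82, helper84, helper87
and helper91.
-/

set_option autoImplicit false

namespace Pool.Agent.Results.MP_181555_al.VirtuallyAbelianSubgroups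

/-- The group `Out (F_n)`: the automorphism group of the free group of rank `n` modulo the group of the
inner automorphisms. -/
abbrev OutF (n : ℕ) : Type :=
  MulAut (FreeGroup (Fin n)) ⧸ (MulAut.conj (G := FreeGroup (Fin n))).range

/-- `α` acts on `F_n / K` as an inner automorphism (`K` characteristic), that is, the class of `α` is in
the kernel of `Out (F_n) → Out (F_n / K)`. -/
def IsInnerModulo {n : ℕ} (K : Subgroup (FreeGroup (Fin n))) (α : MulAut (FreeGroup (Fin n))) : Prop :=
  ∃ g : FreeGroup (Fin n), ∀ x : FreeGroup (Fin n), α x * (g * x * g⁻¹)⁻¹ ∈ K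

/-- `A` has a finitely generated commutative subgroup of finite index. -/
def IsVirtuallyAbelian {G : Type} [Group G] (A : Subgroup G) : Prop :=
  ∃ A₀ : Subgroup G, A₀ ≤ A ∧ A₀.relIndex A ≠ 0 ∧ A₀.FG ∧ ∀ a ∈ A₀, ∀ b ∈ A₀, a * b = b * a

/-- The preimage in `Aut (F_n)` of a subgroup of `Out (F_n)`. -/
abbrev preimage {n : ℕ} (A : Subgroup (OutF n)) : Subgroup (MulAut (FreeGroup (Fin n))) :=
  A.comap (QuotientGroup.mk' (MulAut.conj (G := FreeGroup (Fin n))).range)

/-- The subgroup `C` of `Out (F_n)` is the set of the classes of the automorphisms in `S`. -/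
def IsImage {n : ℕ} (C : Subgroup (OutF n)) (S : Set (MulAut (FreeGroup (Fin n)))) : Prop :=
  ∀ c : OutF n, c ∈ C ↔ ∃ ψ ∈ S, (ψ : OutF n) = c

/-- The automorphisms of `F_m` which extend to an automorphism of `F_n` with class in `A`, for an isomorphism `θ` of
`F_m` with a subgroup `L` of `F_n`. -/
def Cover {n m : ℕ} (A : Subgroup (OutF n)) (L : Subgroup (FreeGroup (Fin n)))
    (θ : FreeGroup (Fin m) ≃* L) : Set (MulAut (FreeGroup (Fin m))) :=
  {β | ∃ α : MulAut (FreeGroup (Fin n)), (α : OutF n) ∈ A ∧
    ∀ x : FreeGroup (Fin m), α (θ x : FreeGroup (Fin n)) = (θ (β x) : FreeGroup (Fin n))}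

/-- The automorphisms of `F_{n + 1} = F_n * ⟨t⟩` which map `F_n` to itself by an automorphism with class in `A`, and
`t` to `u t v` or `u t⁻¹ v` with `u`, `v` in `F_n`. -/
def HnnStep {n : ℕ} (A : Subgroup (OutF n)) : Set (MulAut (FreeGroup (Fin (n + 1)))) :=
  {ψ | ∃ σ : MulAut (FreeGroup (Fin n)), (σ : OutF n) ∈ A ∧
    (∀ x : FreeGroup (Fin n), ψ (FreeGroup.map Fin.castSucc x) = FreeGroup.map Fin.castSucc (σ x)) ∧
    ∃ u v : FreeGroup (Fin n),
      ψ (FreeGroup.of (Fin.last n)) = FreeGroup.map Fin.castSucc u * FreeGroup.of (Fin.last n) *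
        FreeGroup.map Fin.castSucc v ∨
      ψ (FreeGroup.of (Fin.last n)) = FreeGroup.map Fin.castSucc u *
        (FreeGroup.of (Fin.last n))⁻¹ * FreeGroup.map Fin.castSucc v}

/-- The automorphisms of `F_{k + l} = F_k * F_l` which are, up to an inner automorphism, the free product of
an automorphism of `F_k` with class in `A` and an automorphism of `F_l` with class in `B`. -/
def FreeProd {k l : ℕ} (A : Subgroup (OutF k)) (B : Subgroup (OutF l)) :
    Set (MulAut (FreeGroup (Fin (k + l)))) :=
  {φ | ∃ g : FreeGroup (Fin (k + l)), ∃ σ : MulAut (FreeGroup (Fin k)), (σ : OutF k) ∈ A ∧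
    ∃ τ : MulAut (FreeGroup (Fin l)), (τ : OutF l) ∈ B ∧
    (∀ x : FreeGroup (Fin k), φ (FreeGroup.map (Fin.castAdd l) x) =
      g * FreeGroup.map (Fin.castAdd l) (σ x) * g⁻¹) ∧
    ∀ y : FreeGroup (Fin l), φ (FreeGroup.map (Fin.natAdd k) y) =
      g * FreeGroup.map (Fin.natAdd k) (τ y) * g⁻¹}

/-- `w` is not trivial and not a proper power. -/
def IsNotPower {n : ℕ} (w : FreeGroup (Fin n)) : Prop :=
  w ≠ 1 ∧ ∀ (v : FreeGroup (Fin n)) (j : ℤ), w = v ^ j → j = 1 ∨ j = -1

/-- The automorphisms with class in `A` map `w` to conjugates of `w`. -/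
def FixesClass {n : ℕ} (A : Subgroup (OutF n)) (w : FreeGroup (Fin n)) : Prop :=
  ∀ σ : MulAut (FreeGroup (Fin n)), (σ : OutF n) ∈ A → ∃ g, σ w = g * w * g⁻¹

/-- The homomorphism (an embedding if `w ≠ 1`) of `F_{l + 1} = F_l * ⟨t⟩` to `F_k * F_l` which is the identity on `F_l`
and maps `t` to the element `w` of `F_k`. -/
def glue {k : ℕ} (l : ℕ) (w : FreeGroup (Fin k)) :
    FreeGroup (Fin (l + 1)) →* FreeGroup (Fin (k + l)) :=
  FreeGroup.lift (fun i => Fin.lastCases (motive := fun _ => FreeGroup (Fin (k + l)))
    (FreeGroup.map (Fin.castAdd l) w) (fun j => FreeGroup.map (Fin.natAdd k) (FreeGroup.of j)) i)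

/-- `F_{k + l} = F_k * F_l` is the amalgam of `F_k` and `F_l * ⟨t⟩` along `w = t`.  These are its automorphisms which
restrict to an automorphism `σ` of `F_k` with class in `A` and `σ w = w`, and to an automorphism `τ` of `F_l * ⟨t⟩`
with class in `B` and `τ t = t`. -/
def Amalgam {k l : ℕ} (A : Subgroup (OutF k)) (B : Subgroup (OutF (l + 1)))
    (w : FreeGroup (Fin k)) : Set (MulAut (FreeGroup (Fin (k + l)))) :=
  {φ | ∃ σ : MulAut (FreeGroup (Fin k)), ((σ : OutF k) ∈ A ∧ σ w = w) ∧
    ∃ τ : MulAut (FreeGroup (Fin (l + 1))), ((τ : OutF (l + 1)) ∈ B ∧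
      τ (FreeGroup.of (Fin.last l)) = FreeGroup.of (Fin.last l)) ∧
    (∀ x : FreeGroup (Fin k), φ (FreeGroup.map (Fin.castAdd l) x) =
      FreeGroup.map (Fin.castAdd l) (σ x)) ∧
    ∀ y : FreeGroup (Fin (l + 1)), φ (glue l w y) = glue l w (τ y)}

/-- The homomorphism (an embedding if `w ≠ 1`) of `F_{l + 1} = F_l * ⟨t⟩` to `F_l * ⟨s⟩` which is the identity on `F_l`
and maps `t` to `s w s⁻¹`, for an element `w` of `F_l` (both `t` and `s` are the last generator of `F_{l + 1}`). -/
def conjGlue {l : ℕ} (w : FreeGroup (Fin l)) : FreeGroup (Fin (l + 1)) →* FreeGroup (Fin (l + 1)) :=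
  FreeGroup.lift (fun i => Fin.lastCases (motive := fun _ => FreeGroup (Fin (l + 1)))
    (FreeGroup.of (Fin.last l) * FreeGroup.map Fin.castSucc w * (FreeGroup.of (Fin.last l))⁻¹)
    (fun j => FreeGroup.map Fin.castSucc (FreeGroup.of j)) i)

/-- `F_l * ⟨s⟩` is the HNN extension of `F_l * ⟨t⟩` with the stable letter `s` and `s w s⁻¹ = t`.  These are its
automorphisms which restrict to an automorphism `τ` of `F_l * ⟨t⟩` with class in `B` and `τ t = t`. -/
def CyclicHnn {l : ℕ} (B : Subgroup (OutF (l + 1))) (w : FreeGroup (Fin l)) :
    Set (MulAut (FreeGroup (Fin (l + 1)))) :=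
  {φ | ∃ τ : MulAut (FreeGroup (Fin (l + 1))), ((τ : OutF (l + 1)) ∈ B ∧
      τ (FreeGroup.of (Fin.last l)) = FreeGroup.of (Fin.last l)) ∧
    ∀ y : FreeGroup (Fin (l + 1)), φ (conjGlue w y) = conjGlue w (τ y)}

/-- The subgroup `C` of `A`, on which `A` induces the full profinite topology: every subgroup `B` of
finite index of `C` contains the intersection of `C` with a subgroup `D` of finite index of `A`. -/
def IsFullIn {G : Type} [Group G] (C A : Subgroup G) : Prop :=
  C ≤ A ∧ ∀ B : Subgroup G, B ≤ C → B.relIndex C ≠ 0 →
    ∃ D : Subgroup G, D ≤ A ∧ D.relIndex A ≠ 0 ∧ D ⊓ C ≤ B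

/-- `p : F_{m+1} → F_n` is surjective, `p t = 1` for the last generator `t`, and `f` is a homomorphism from the
preimage of `A` in `Aut (F_n)` to `Out (F_{m+1})` such that `f σ` is the class of an automorphism which fixes `t` and
corresponds to `σ` under `p`, for all `σ`. -/
def IsPuncture {n m : ℕ} (A : Subgroup (OutF n))
    (p : FreeGroup (Fin (m + 1)) →* FreeGroup (Fin n)) (f : preimage A →* OutF (m + 1)) : Prop :=
  Function.Surjective p ∧ p (FreeGroup.of (Fin.last m)) = 1 ∧
  ∀ σ : preimage A, ∃ ψ : MulAut (FreeGroup (Fin (m + 1))), (ψ : OutF (m + 1)) = f σ ∧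
    ψ (FreeGroup.of (Fin.last m)) = FreeGroup.of (Fin.last m) ∧
    ∀ x, p (ψ x) = (σ : MulAut (FreeGroup (Fin n))) (p x)

/-- The least family of subgroups of the groups `Out (F_n)`, `n ≥ 1`, which contains `Out (F_1)`, `Out (F_2)` and the
virtually abelian subgroups of `Out (F_n)`, `n ≥ 2`, and is closed under subgroups on which the full profinite
topology is induced, overgroups in which the group is a congruence subgroup, covers, punctures, HNN steps, free products and amalgams. -/
inductive Family : (n : ℕ) → Subgroup (OutF n) → Prop
  | rankOne : Family 1 ⊤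
  | rankTwo : Family 2 ⊤
  | virtuallyAbelian (n : ℕ) (A : Subgroup (OutF n)) : 2 ≤ n → IsVirtuallyAbelian A → Family n A
  | subgroup {n : ℕ} {A C : Subgroup (OutF n)} : Family n A → IsFullIn C A → Family n C
  | overgroup {n : ℕ} {A C : Subgroup (OutF n)} (K : Subgroup (FreeGroup (Fin n))) : Family n A →
      A ≤ C → K.Characteristic → K.FiniteIndex →
      (∀ α : MulAut (FreeGroup (Fin n)), (α : OutF n) ∈ C → IsInnerModulo K α → (α : OutF n) ∈ A) →
      Family n C
  | cover {n m : ℕ} {A : Subgroup (OutF n)} {C : Subgroup (OutF m)}
      (L : Subgroup (FreeGroup (Fin n))) (θ : FreeGroup (Fin m) ≃* L) : 2 ≤ n → L.FiniteIndex →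
      Family n A → IsImage C (Cover A L θ) → Family m C
  | puncture {n m : ℕ} {A : Subgroup (OutF n)} (p : FreeGroup (Fin (m + 1)) →* FreeGroup (Fin n))
      (f : preimage A →* OutF (m + 1)) : Family n A → IsPuncture A p f → Family (m + 1) f.range
  | hnnStep {n : ℕ} {A : Subgroup (OutF n)} {C : Subgroup (OutF (n + 1))} : Family n A →
      IsImage C (HnnStep A) → Family (n + 1) C
  | freeProd {k l : ℕ} {A : Subgroup (OutF k)} {B : Subgroup (OutF l)}
      {C : Subgroup (OutF (k + l))} : Family k A → Family l B → IsImage C (FreeProd A B) →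
      Family (k + l) C
  | amalgam {k l : ℕ} {A : Subgroup (OutF k)} {B : Subgroup (OutF (l + 1))}
      {C : Subgroup (OutF (k + l))} (w : FreeGroup (Fin k)) : Family k A → Family (l + 1) B →
      IsNotPower w → FixesClass A w → FixesClass B (FreeGroup.of (Fin.last l)) →
      IsImage C (Amalgam A B w) → Family (k + l) C
  | cyclicHnn {l : ℕ} {B C : Subgroup (OutF (l + 1))} (w : FreeGroup (Fin l)) :
      Family (l + 1) B → IsNotPower w → FixesClass B (FreeGroup.of (Fin.last l)) →
      FixesClass B (FreeGroup.map Fin.castSucc w) → IsImage C (CyclicHnn B w) → Family (l + 1) C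

open Pool.Agent.V5helper35.ASF in
theorem Family.full {n : ℕ} {A : Subgroup (OutF n)} (h : Family n A) : 1 ≤ n ∧ Full n A := by
  induction h with
  | rankOne => exact ⟨le_rfl, full_one⟩
  | rankTwo => exact ⟨by norm_num, full_two⟩
  | virtuallyAbelian n A hn hA =>
    obtain ⟨A₀, h1, h2, h3, h4⟩ := hA
    exact ⟨by omega, full_ab n hn A A₀ h1 h2 h3 h4⟩
  | subgroup _ h1 ih => exact ⟨ih.1, full_sub ih.2 h1.1 h1.2⟩
  | overgroup K _ h1 h2 h3 h4 ih => exact ⟨ih.1, full_over ih.2 h1 K h2 h3 h4⟩
  | @cover n m A C L θ h1 h2 _ h3 ih =>
    have h4 : C = (covG (pre A) L θ).map (QuotientGroup.mk' _) := by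
      ext c
      exact h3 c
    rw [h4]
    exact fullCov h1 L h2 θ ih.2
  | puncture p f _ hf ih => exact ⟨by omega, fullPunc ih.1 ih.2 p hf.1 hf.2.1 f hf.2.2⟩
  | @hnnStep n A C _ h3 ih =>
    have h4 : C = (stepG (pre A)).map (QuotientGroup.mk' _) := by
      ext c
      exact h3 c
    rw [h4]
    exact ⟨by omega, fullStep ih.1 ih.2⟩
  | @freeProd k l A B C _ _ h3 ih1 ih2 =>
    have h4 : C = (prdG (pre A) (pre B)).map (QuotientGroup.mk' _) := by
      ext c
      exact h3 c
    rw [h4]
    exact ⟨by omega, fullProd ih1.1 ih2.1 ih1.2 ih2.2⟩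
  | @amalgam k l A B C w _ _ hw hA hB h3 ih1 ih2 =>
    have h4 : C = (amaG (fixG (pre A) w) (fixG (pre B) (FreeGroup.of (Fin.last l))) w).map
        (QuotientGroup.mk' _) := by
      ext c
      exact h3 c
    rw [h4]
    exact ⟨by omega, fullAma ih1.1 w hw ih1.2 ih2.2 hA hB⟩
  | @cyclicHnn l B C w _ hw hB hBw h3 ih =>
    have h4 : C = (loopG (fixG (pre B) (FreeGroup.of (Fin.last l))) w).map
        (QuotientGroup.mk' _) := by
      ext c
      exact h3 c
    rw [h4]
    exact ⟨by omega, fullLoop w hw ih.2 hB hBw⟩

/-- **The congruence topology of `Out (F_n)` induces the full profinite topology on all groups in the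
family.** -/
theorem result :
    -- for every group `A ≤ Out (F_n)` in the family and every subgroup `B` of finite index of `A`
    ∀ (n : ℕ) (A : Subgroup (OutF n)), Family n A →
      ∀ B : Subgroup (OutF n), B ≤ A → B.relIndex A ≠ 0 →
        -- `B` contains all elements of `A` which are trivial in `Out (F_n / K)`, for some `K`
        ∃ K : Subgroup (FreeGroup (Fin n)), K.Characteristic ∧ K.FiniteIndex ∧
          ∀ α : MulAut (FreeGroup (Fin n)), (α : OutF n) ∈ A → IsInnerModulo K α →
            (α : OutF n) ∈ B :=
  fun _ _ hA => hA.full.2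

end Pool.Agent.Results.MP_181555_al.VirtuallyAbelianSubgroups
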